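import Mathlib

/-!
# Separable spaces with a boundary of spears contain `c₀` or `ℓ₁`: definitions and statements
-/

set_option autoImplicit false

open scoped ZeroAtInfty

namespace MPbb13ef

/-- the sign of a Boolean -/
def sg (b : Bool) : ℝ := if b then 1 else -1

/-- `X` contains an isomorphic copy of `c₀`. -/
def HasC0 (X : Type) [NormedAddCommGroup X] [NormedSpace ℝ X] : Prop :=
  ∃ S : C₀(ℕ, ℝ) →L[ℝ] X, ∃ c : ℝ, 0 < c ∧ ∀ y : C₀(ℕ, ℝ), c * ‖y‖ ≤ ‖S y‖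

/-- `X` contains an isomorphic copy of `ℓ₁`. -/
def HasL1 (X : Type) [NormedAddCommGroup X] [NormedSpace ℝ X] : Prop :=
  ∃ S : lp (fun _ : ℕ => ℝ) 1 →L[ℝ] X, ∃ c : ℝ, 0 < c ∧
    ∀ y : lp (fun _ : ℕ => ℝ) 1, c * ‖y‖ ≤ ‖S y‖

section

variable {X : Type} [NormedAddCommGroup X] [NormedSpace ℝ X]

/-- A spear: a norm one functional `f` such that the unit ball is the closed convex hull of every
slice given by `f` and the opposite slice. -/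
def Spear (f : X →L[ℝ] ℝ) : Prop :=
  ‖f‖ = 1 ∧ ∀ ε : ℝ, 0 < ε → Metric.closedBall (0 : X) 1 ⊆
    closure (convexHull ℝ ({x : X | ‖x‖ ≤ 1 ∧ 1 - ε < f x} ∪ {x : X | ‖x‖ ≤ 1 ∧ f x < -(1 - ε)}))

/-- The form of the spear condition which is used in the proofs. -/
def Sp (f : X →L[ℝ] ℝ) : Prop :=
  ‖f‖ ≤ 1 ∧ ∀ x : X, ‖x‖ ≤ 1 → ∀ η : ℝ, 0 < η → ∃ (y z : X) (l : ℝ), ‖y‖ ≤ 1 ∧ ‖z‖ ≤ 1 ∧
    1 - η < f y ∧ 1 - η < f z ∧ 0 ≤ l ∧ l ≤ 1 ∧ ‖x - (l • y - (1 - l) • z)‖ < η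

/-- A set of functionals is consistent if every finite subset is almost equal to one at some point
of the unit ball. -/
def Cons (P : Set (X →L[ℝ] ℝ)) : Prop :=
  ∀ T : Finset (X →L[ℝ] ℝ), (T : Set (X →L[ℝ] ℝ)) ⊆ P → ∀ ε : ℝ, 0 < ε →
    ∃ x : X, ‖x‖ ≤ 1 ∧ ∀ t ∈ T, 1 - ε < t x

/-- The elements of `D` which are not determined by `P`. -/
def Und (D P : Set (X →L[ℝ] ℝ)) : Set (X →L[ℝ] ℝ) :=
  {e | e ∈ D ∧ Cons (insert e P) ∧ Cons (insert (-e) P)}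

/-- Extensions of `P` inside `D`. -/
def Ext (D P P' : Set (X →L[ℝ] ℝ)) : Prop := P ⊆ P' ∧ P' ⊆ D ∧ P'.Countable ∧ Cons P'

/-- Basic sets of functionals. -/
def UB (d : ℕ → X) (τ : List (ℕ × Bool)) : Set (X →L[ℝ] ℝ) :=
  {e | ∀ p ∈ τ, 1 / 2 < sg p.2 * e (d p.1)}

/-- The vertices: the elements of the ball at which all elements of `D` are `1` or `-1`. -/
def Vtx (D : Set (X →L[ℝ] ℝ)) : Set X := {y | ‖y‖ ≤ 1 ∧ ∀ e ∈ D, |e y| = 1}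

/-- The assumptions of the theorem: `D` is a norming symmetric set of spears and `D ∪ Q` is a
boundary, where `Q` is countable. -/
structure Setting (D Q : Set (X →L[ℝ] ℝ)) : Prop where
  sp : ∀ f ∈ D, Sp f
  neg : ∀ f ∈ D, -f ∈ D
  norming : ∀ (x : X) (r : ℝ), r < ‖x‖ → ∃ f ∈ D, r < f x
  bdry : ∀ x : X, ∃ f ∈ D ∪ Q, ‖f‖ ≤ 1 ∧ |f x| = ‖x‖
  count : Q.Countable

end

/-! ### Spears and consistent sets -/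

/-- HULL -/
def S_HULL : Prop := ∀ (X : Type) [NormedAddCommGroup X] [NormedSpace ℝ X] (f : X →L[ℝ] ℝ),
  Spear f → Sp f

/-- SPL: splitting -/
def S_SPL : Prop := ∀ (X : Type) [NormedAddCommGroup X] [NormedSpace ℝ X]
  (P : Set (X →L[ℝ] ℝ)) (e : X →L[ℝ] ℝ), (∀ t ∈ P, ‖t‖ ≤ 1) → Sp e → Cons P →
  Cons (insert e P) ∨ Cons (insert (-e) P)

/-- DET: determination -/
def S_DET : Prop := ∀ (X : Type) [NormedAddCommGroup X] [NormedSpace ℝ X]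
  (P : Set (X →L[ℝ] ℝ)) (e : X →L[ℝ] ℝ), (∀ t ∈ P, ‖t‖ ≤ 1) → Sp e → ¬ Cons (insert (-e) P) →
  ∃ (T : Finset (X →L[ℝ] ℝ)) (C : ℝ), (T : Set (X →L[ℝ] ℝ)) ⊆ P ∧ 0 < C ∧
    ∀ x : X, ‖x‖ ≤ 1 → 1 - e x ≤ C * ∑ t ∈ T, (1 - t x)

/-- STB: stabilisation -/
def S_STB : Prop := ∀ (X : Type) [NormedAddCommGroup X] [NormedSpace ℝ X]
  (D : Set (X →L[ℝ] ℝ)) (ι : Type) [Countable ι] (U : ι → Set (X →L[ℝ] ℝ))
  (P₀ : Set (X →L[ℝ] ℝ)), P₀ ⊆ D → P₀.Countable → Cons P₀ →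
  ∃ P, Ext D P₀ P ∧ ∀ i, (U i ∩ Und D P).Nonempty → ∀ P', Ext D P P' →
    (U i ∩ Und D P').Nonempty

/-- EXT: simultaneous extension -/
def S_EXT : Prop := ∀ (X : Type) [NormedAddCommGroup X] [NormedSpace ℝ X]
  (D P : Set (X →L[ℝ] ℝ)), (∀ f ∈ D, -f ∈ D) → Ext D P P → ∀ (J : Type) [Finite J]
  (W : J → Set (X →L[ℝ] ℝ)), (∀ j P', Ext D P P' → (W j ∩ Und D P').Nonempty) →
  ∃ a b : J → (X →L[ℝ] ℝ), (∀ j, a j ∈ W j ∩ Und D P) ∧ (∀ j, b j ∈ W j ∩ Und D P) ∧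
    Cons (P ∪ (Set.range a ∪ Set.range fun j => -b j))

/-- DNS: a dense sequence of the ball -/
def S_DNS : Prop := ∀ (X : Type) [NormedAddCommGroup X] [NormedSpace ℝ X]
  [TopologicalSpace.SeparableSpace X], ∃ d : ℕ → X, (∀ n, ‖d n‖ ≤ 1) ∧
    ∀ x : X, ‖x‖ ≤ 1 → ∀ ε : ℝ, 0 < ε → ∃ n, ‖x - d n‖ < ε

/-- L4: an undetermined functional gives an independent sequence -/
def S_L4 : Prop := ∀ (X : Type) [NormedAddCommGroup X] [NormedSpace ℝ X]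
  (D P : Set (X →L[ℝ] ℝ)) (d : ℕ → X), (∀ f ∈ D, Sp f) → (∀ f ∈ D, -f ∈ D) → (∀ n, ‖d n‖ ≤ 1) →
  (∀ x : X, ‖x‖ ≤ 1 → ∀ ε : ℝ, 0 < ε → ∃ n, ‖x - d n‖ < ε) → Ext D P P →
  (∀ τ, (UB d τ ∩ Und D P).Nonempty → ∀ P', Ext D P P' → (UB d τ ∩ Und D P').Nonempty) →
  (Und D P).Nonempty →
  ∃ x : ℕ → X, (∀ n, ‖x n‖ ≤ 1) ∧ ∀ (n : ℕ) (s : ℕ → Bool), ∃ e ∈ D, ∀ i < n,
    1 / 2 < sg (s i) * e (x i)

/-- L1E: an independent sequence gives a copy of `ℓ₁` -/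
def S_L1E : Prop := ∀ (X : Type) [NormedAddCommGroup X] [NormedSpace ℝ X] [CompleteSpace X]
  (x : ℕ → X), (∀ n, ‖x n‖ ≤ 1) →
  (∀ (n : ℕ) (s : ℕ → Bool), ∃ e : X →L[ℝ] ℝ, ‖e‖ ≤ 1 ∧ ∀ i < n, 1 / 2 < sg (s i) * e (x i)) →
  HasL1 X

/-! ### Copies of `c₀` -/

/-- all sign sums are bounded by `C` -/
def SB {X : Type} [NormedAddCommGroup X] [NormedSpace ℝ X] (w : ℕ → X) (C : ℝ) : Prop :=
  ∀ (J : Finset ℕ) (s : ℕ → Bool), ‖∑ i ∈ J, sg (s i) • w i‖ ≤ C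

/-- BPA: from signs to coefficients -/
def S_BPA : Prop := ∀ (X : Type) [NormedAddCommGroup X] [NormedSpace ℝ X] (w : ℕ → X) (C : ℝ),
  SB w C → ∀ (J : Finset ℕ) (θ : ℕ → ℝ) (B : ℝ), 0 ≤ B → (∀ i ∈ J, |θ i| ≤ B) →
  ‖∑ i ∈ J, θ i • w i‖ ≤ C * B

/-- BPB: selection of a subsequence -/
def S_BPB : Prop := ∀ (X : Type) [NormedAddCommGroup X] [NormedSpace ℝ X] (w : ℕ → X) (c C : ℝ),
  0 < c → (∀ n, c ≤ ‖w n‖) → SB w C →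
  ∃ (φ : ℕ → ℕ) (f : ℕ → (X →L[ℝ] ℝ)), StrictMono φ ∧ ∀ n, ‖f n‖ ≤ 1 ∧ c ≤ f n (w (φ n)) ∧
    ∀ J : Finset ℕ, n ∉ J → ∑ m ∈ J, |f n (w (φ m))| ≤ c / 2

/-- BPC: the embedding -/
def S_BPC : Prop := ∀ (X : Type) [NormedAddCommGroup X] [NormedSpace ℝ X] [CompleteSpace X]
  (w : ℕ → X) (f : ℕ → (X →L[ℝ] ℝ)) (c C : ℝ), 0 < c →
  (∀ (J : Finset ℕ) (θ : ℕ → ℝ) (B : ℝ), 0 ≤ B → (∀ i ∈ J, |θ i| ≤ B) →
    ‖∑ i ∈ J, θ i • w i‖ ≤ C * B) →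
  (∀ n, ‖f n‖ ≤ 1 ∧ c ≤ f n (w n) ∧ ∀ J : Finset ℕ, n ∉ J → ∑ m ∈ J, |f n (w m)| ≤ c / 2) →
  HasC0 X

/-- BP: the theorem of Bessaga and Pelczynski -/
def S_BP : Prop := ∀ (X : Type) [NormedAddCommGroup X] [NormedSpace ℝ X] [CompleteSpace X]
  (w : ℕ → X) (c C : ℝ), 0 < c → (∀ n, c ≤ ‖w n‖) → SB w C → HasC0 X

/-- BLK: tails of bounded series are small -/
def S_BLK : Prop := ∀ (X : Type) [NormedAddCommGroup X] [NormedSpace ℝ X] [CompleteSpace X]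
  (w : ℕ → X) (C : ℝ), SB w C → ¬ HasC0 X → ∀ ε : ℝ, 0 < ε → ∃ N : ℕ, ∀ J : Finset ℕ,
  (∀ i ∈ J, N ≤ i) → ∀ s : ℕ → Bool, ‖∑ i ∈ J, sg (s i) • w i‖ ≤ ε

/-- CPT: the sign sums are contained in a compact set -/
def S_CPT : Prop := ∀ (X : Type) [NormedAddCommGroup X] [NormedSpace ℝ X] [CompleteSpace X]
  (w : ℕ → X) (C : ℝ), SB w C → ¬ HasC0 X → ∃ K : Set X, IsCompact K ∧
  ∀ (J : Finset ℕ) (s : ℕ → Bool), ∑ i ∈ J, sg (s i) • w i ∈ K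

/-! ### The theorem of Elton and Fonf for boundaries -/

/-- F1: normalized blocks -/
def S_F1 : Prop := ∀ (X : Type) [NormedAddCommGroup X] [NormedSpace ℝ X] [CompleteSpace X]
  (B : Set (X →L[ℝ] ℝ)) (z : ℕ → X) (δ : ℝ), 0 < δ → (∀ n, δ ≤ ‖z n‖) →
  (∀ b ∈ B, Summable fun n => |b (z n)|) → ¬ HasC0 X →
  ∃ u : ℕ → X, (∀ i, ‖u i‖ = 1) ∧ ∀ b ∈ B, ∃ M : ℝ, ∀ i, |b (u i)| ≤ M * (1 / 2) ^ i

/-- the properties of the auxiliary norm -/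
structure Aux {X : Type} [NormedAddCommGroup X] [NormedSpace ℝ X] (u : ℕ → X) (N : X → ℝ) :
    Prop where
  unit : ∀ i, ‖u i‖ = 1
  lower : ∀ x, ‖x‖ ≤ N x
  upper : ∀ x, N x ≤ 2 * ‖x‖
  local' : ∀ x : X, x ≠ 0 → ∃ (δ M : ℝ), 0 < δ ∧ ∀ (x' : X) (t : ℝ) (i : ℕ), ‖x' - x‖ < δ →
    |t| < δ → N (x' + t • u i) ≤ N x' + |t| * M * (1 / 2) ^ i

/-- F2: the auxiliary norm -/
def S_F2 : Prop := ∀ (X : Type) [NormedAddCommGroup X] [NormedSpace ℝ X]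
  (B : Set (X →L[ℝ] ℝ)) (u : ℕ → X), (∀ x : X, ∃ b ∈ B, ‖b‖ ≤ 1 ∧ |b x| = ‖x‖) →
  (∀ i, ‖u i‖ = 1) → (∀ b ∈ B, ∃ M : ℝ, ∀ i, |b (u i)| ≤ M * (1 / 2) ^ i) →
  ∃ N : X → ℝ, Aux u N

open Classical in
/-- G1: greedy selection -/
def S_G1 : Prop := ∀ (X : Type) [NormedAddCommGroup X] [NormedSpace ℝ X] (u : ℕ → X) (N : X → ℝ),
  Aux u N → ∃ (S : ℕ → Finset X) (i j : ℕ → ℕ), S 0 = {0} ∧ StrictMono i ∧
  (∀ n, S (n + 1) = S n ∪ ((S n).image (fun x => x + ((1 / 2 : ℝ) ^ j n) • u (i n)) ∪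
    (S n).image (fun x => x - ((1 / 2 : ℝ) ^ j n) • u (i n)))) ∧
  (∀ n, ∀ s ∈ S n, N s ≤ 2 - (1 / 2) ^ n) ∧
  ∀ n, ∀ j' < j n, ∀ i', i n ≤ i' → ∃ s ∈ S n, ∃ b : Bool,
    2 - (1 / 2) ^ (n + 1) < N (s + (sg b * (1 / 2) ^ j') • u i')

/-- G2: the auxiliary norm gives `c₀` -/
def S_G2 : Prop := ∀ (X : Type) [NormedAddCommGroup X] [NormedSpace ℝ X] [CompleteSpace X]
  (u : ℕ → X) (N : X → ℝ), Aux u N → HasC0 X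

/-- F: series which converge absolutely on a boundary -/
def S_F : Prop := ∀ (X : Type) [NormedAddCommGroup X] [NormedSpace ℝ X] [CompleteSpace X]
  (B : Set (X →L[ℝ] ℝ)) (z : ℕ → X) (δ : ℝ), (∀ x : X, ∃ b ∈ B, ‖b‖ ≤ 1 ∧ |b x| = ‖x‖) →
  0 < δ → (∀ n, δ ≤ ‖z n‖) → (∀ b ∈ B, Summable fun n => |b (z n)|) → HasC0 X

/-! ### Vertices -/

/-- SUB: diagonal subsequences -/
def S_SUB : Prop := ∀ (X : Type) [NormedAddCommGroup X] [NormedSpace ℝ X]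
  (q : ℕ → (X →L[ℝ] ℝ)) (y : ℕ → X), (∀ k, ‖y k‖ ≤ 1) → ∃ φ : ℕ → ℕ, StrictMono φ ∧
  ∀ j, Summable fun k => |q j (y (φ (k + 1)) - y (φ k))|

/-- CAU: sequences which are not Cauchy -/
def S_CAU : Prop := ∀ (X : Type) [NormedAddCommGroup X] (y : ℕ → X), ¬ CauchySeq y →
  ∃ (δ : ℝ) (a b : ℕ → ℕ), 0 < δ ∧ (∀ n, a n < b n) ∧ (∀ n, b n ≤ a (n + 1)) ∧
    ∀ n, δ ≤ ‖y (b n) - y (a n)‖

/-- INT: sums over disjoint intervals -/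
def S_INT : Prop := ∀ (r : ℕ → ℝ) (a b : ℕ → ℕ), (Summable fun k => |r (k + 1) - r k|) →
  (∀ n, a n < b n) → (∀ n, b n ≤ a (n + 1)) → Summable fun n => |r (b n) - r (a n)|

/-- B: determined sets are given by vertices -/
def S_B : Prop := ∀ (X : Type) [NormedAddCommGroup X] [NormedSpace ℝ X] [CompleteSpace X]
  (D Q : Set (X →L[ℝ] ℝ)), Setting D Q → ¬ HasC0 X → ∀ P : Set (X →L[ℝ] ℝ), Ext D P P →
  Und D P = ∅ → ∃ y ∈ Vtx D, ∀ e ∈ P, e y = 1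

/-- VC: vertices are separated and countable -/
def S_VC : Prop := ∀ (X : Type) [NormedAddCommGroup X] [NormedSpace ℝ X]
  [TopologicalSpace.SeparableSpace X] (D Q : Set (X →L[ℝ] ℝ)), Setting D Q →
  (∀ y ∈ Vtx D, ∀ y' ∈ Vtx D, y ≠ y' → 2 ≤ ‖y - y'‖) ∧ (Vtx D).Countable

/-- VI: there are infinitely many vertices -/
def S_VI : Prop := ∀ (X : Type) [NormedAddCommGroup X] [NormedSpace ℝ X]
  (D Q : Set (X →L[ℝ] ℝ)), Setting D Q →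
  (∀ P : Set (X →L[ℝ] ℝ), Ext D P P → ∃ y ∈ Vtx D, ∀ e ∈ P, e y = 1) →
  ¬ FiniteDimensional ℝ X → (Vtx D).Infinite

/-- E: the final contradiction -/
def S_E : Prop := ∀ (X : Type) [NormedAddCommGroup X] [NormedSpace ℝ X] [CompleteSpace X]
  (D Q : Set (X →L[ℝ] ℝ)), Setting D Q →
  (∀ P : Set (X →L[ℝ] ℝ), Ext D P P → ∃ y ∈ Vtx D, ∀ e ∈ P, e y = 1) →
  (∀ y ∈ Vtx D, ∀ y' ∈ Vtx D, y ≠ y' → 2 ≤ ‖y - y'‖) → (Vtx D).Countable → (Vtx D).Infinite →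
  HasC0 X

/-- MAIN -/
def S_MAIN : Prop := ∀ (X : Type) [NormedAddCommGroup X] [NormedSpace ℝ X] [CompleteSpace X]
  [TopologicalSpace.SeparableSpace X] (D Q : Set (X →L[ℝ] ℝ)), Setting D Q →
  ¬ FiniteDimensional ℝ X → HasC0 X ∨ HasL1 X

/-! ### Faces, almost-CL-spaces and the numerical index -/

section

variable {X : Type} [NormedAddCommGroup X] [NormedSpace ℝ X]

/-- the unit ball is the closed convex hull of the face given by `f` and the opposite face -/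
def FaceGen (f : X →L[ℝ] ℝ) : Prop :=
  ‖f‖ = 1 ∧ Metric.closedBall (0 : X) 1 ⊆
    closure (convexHull ℝ ({x : X | ‖x‖ ≤ 1 ∧ f x = 1} ∪ {x : X | ‖x‖ ≤ 1 ∧ f x = -1}))

end

/-- FACE -/
def S_FACE : Prop := ∀ (X : Type) [NormedAddCommGroup X] [NormedSpace ℝ X] (f : X →L[ℝ] ℝ),
  FaceGen f → Spear f

/-- ACL: almost-CL-spaces -/
def S_ACL : Prop := ∀ (X : Type) [NormedAddCommGroup X] [NormedSpace ℝ X],
  (∀ F : Set X, Maximal (fun G : Set X => Convex ℝ G ∧ G ⊆ Metric.sphere (0 : X) 1) F →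
    Metric.closedBall (0 : X) 1 ⊆ closure (convexHull ℝ (F ∪ -F))) →
  ∀ x : X, ‖x‖ = 1 → ∃ f : X →L[ℝ] ℝ, FaceGen f ∧ f x = 1

/-- NI: numerical index one -/
def S_NI : Prop := ∀ (X : Type) [NormedAddCommGroup X] [NormedSpace ℝ X],
  (∀ x : X, ‖x‖ = 1 → ∃ f : X →L[ℝ] ℝ, FaceGen f ∧ f x = 1) → (∃ x : X, x ≠ 0) →
  ∀ (T : X →L[ℝ] X) (r : ℝ), r < ‖T‖ →
    ∃ (x : X) (f : X →L[ℝ] ℝ), ‖x‖ = 1 ∧ ‖f‖ = 1 ∧ f x = 1 ∧ r < |f (T x)|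

end MPbb13ef
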