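import Mathlib
import Pool.Agent.Work.MP_bb13ef_an.ACL.Stmts

/-!
# The embedding of `c₀`
-/

set_option autoImplicit false

open scoped ZeroAtInfty
open Filter Topology

namespace MPbb13ef

namespace BPC

theorem tendsto_zero (a : C₀(ℕ, ℝ)) : Tendsto (fun n => a n) atTop (𝓝 0) := by
  have h := a.zero_at_infty'
  rw [cocompact_eq_cofinite, Nat.cofinite_eq_atTop] at h
  exact h

theorem abs_le_norm (a : C₀(ℕ, ℝ)) (n : ℕ) : |a n| ≤ ‖a‖ := by
  rw [← ZeroAtInftyContinuousMap.norm_toBCF_eq_norm]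
  exact a.toBCF.norm_coe_le_norm n

variable {X : Type} [NormedAddCommGroup X] [NormedSpace ℝ X] [CompleteSpace X]
  (w : ℕ → X) (C : ℝ)

theorem C_nonneg (h : ∀ (J : Finset ℕ) (θ : ℕ → ℝ) (B : ℝ), 0 ≤ B → (∀ i ∈ J, |θ i| ≤ B) →
    ‖∑ i ∈ J, θ i • w i‖ ≤ C * B) : 0 ≤ C := by
  have := h ∅ (fun _ => 0) 1 zero_le_one (by simp)
  simpa using this

theorem summable (h : ∀ (J : Finset ℕ) (θ : ℕ → ℝ) (B : ℝ), 0 ≤ B → (∀ i ∈ J, |θ i| ≤ B) →
    ‖∑ i ∈ J, θ i • w i‖ ≤ C * B) (a : C₀(ℕ, ℝ)) : Summable fun n => a n • w n := by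
  have hC := C_nonneg w C h
  rw [summable_iff_vanishing_norm]
  intro ε hε
  have hδ : 0 < ε / (C + 1) := by positivity
  obtain ⟨N, hN⟩ := Metric.tendsto_atTop.1 (tendsto_zero a) _ hδ
  refine ⟨Finset.range N, fun J hJ => ?_⟩
  have h1 := h J (fun n => a n) (ε / (C + 1)) hδ.le (by
    intro i hi
    have hi' : N ≤ i := by
      by_contra hcon
      exact Finset.disjoint_left.1 hJ hi (Finset.mem_range.2 (by omega))
    have := hN i hi'
    rw [Real.dist_eq, sub_zero] at this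
    exact this.le)
  refine h1.trans_lt ?_
  rw [mul_div_assoc', div_lt_iff₀ (by positivity)]
  nlinarith

theorem norm_tsum_le (h : ∀ (J : Finset ℕ) (θ : ℕ → ℝ) (B : ℝ), 0 ≤ B → (∀ i ∈ J, |θ i| ≤ B) →
    ‖∑ i ∈ J, θ i • w i‖ ≤ C * B) (a : C₀(ℕ, ℝ)) : ‖∑' n, a n • w n‖ ≤ C * ‖a‖ := by
  have hs := (summable w C h a).hasSum.norm
  refine le_of_tendsto hs (Eventually.of_forall fun J => ?_)
  exact h J (fun n => a n) ‖a‖ (norm_nonneg _) (fun i _ => abs_le_norm a i)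

/-- the embedding -/
noncomputable def S (h : ∀ (J : Finset ℕ) (θ : ℕ → ℝ) (B : ℝ), 0 ≤ B → (∀ i ∈ J, |θ i| ≤ B) →
    ‖∑ i ∈ J, θ i • w i‖ ≤ C * B) : C₀(ℕ, ℝ) →L[ℝ] X :=
  LinearMap.mkContinuous
    { toFun := fun a => ∑' n, a n • w n
      map_add' := by
        intro a b
        rw [← (summable w C h a).tsum_add (summable w C h b)]
        refine tsum_congr fun n => ?_
        rw [ZeroAtInftyContinuousMap.add_apply, add_smul]
      map_smul' := by
        intro r a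
        rw [RingHom.id_apply, ← tsum_const_smul'' r]
        refine tsum_congr fun n => ?_
        rw [ZeroAtInftyContinuousMap.smul_apply, smul_smul, smul_eq_mul] }
    C (norm_tsum_le w C h)

theorem S_apply (h : ∀ (J : Finset ℕ) (θ : ℕ → ℝ) (B : ℝ), 0 ≤ B → (∀ i ∈ J, |θ i| ≤ B) →
    ‖∑ i ∈ J, θ i • w i‖ ≤ C * B) (a : C₀(ℕ, ℝ)) : S w C h a = ∑' n, a n • w n := rfl

end BPC

theorem prf_BPC : S_BPC := by
  intro X _ _ _ w f c C hc h hf
  refine ⟨BPC.S w C h, c / 4, by positivity, ?_⟩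
  intro a
  by_cases ha : ‖a‖ = 0
  · rw [ha, mul_zero]
    exact norm_nonneg _
  have hpos : 0 < ‖a‖ := lt_of_le_of_ne (norm_nonneg _) (Ne.symm ha)
  -- a coordinate which is large
  have hex : ∃ n, 3 / 4 * ‖a‖ ≤ |a n| := by
    by_contra hcon
    push Not at hcon
    have : ‖a‖ ≤ 3 / 4 * ‖a‖ := by
      conv_lhs => rw [← ZeroAtInftyContinuousMap.norm_toBCF_eq_norm]
      exact (BoundedContinuousFunction.norm_le (by positivity)).2 fun n => (hcon n).le
    linarith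
  obtain ⟨n, hn⟩ := hex
  obtain ⟨hf1, hf2, hf3⟩ := hf n
  have hsum : HasSum (fun m => f n (a m • w m)) (f n (BPC.S w C h a)) :=
    (BPC.summable w C h a).hasSum.mapL (f n)
  have hlow : c / 4 * ‖a‖ ≤ |f n (BPC.S w C h a)| := by
    refine ge_of_tendsto hsum.abs ?_
    filter_upwards [eventually_ge_atTop ({n} : Finset ℕ)] with J hJ
    have hnJ : n ∈ J := hJ (Finset.mem_singleton_self n)
    rw [← Finset.add_sum_erase J _ hnJ]
    have h1 : |∑ m ∈ J.erase n, f n (a m • w m)| ≤ ‖a‖ * (c / 2) := by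
      refine (Finset.abs_sum_le_sum_abs _ _).trans ?_
      refine le_trans (Finset.sum_le_sum (g := fun m => ‖a‖ * |f n (w m)|) fun m _ => ?_) ?_
      · rw [map_smul, smul_eq_mul, abs_mul]
        exact mul_le_mul_of_nonneg_right (BPC.abs_le_norm a m) (abs_nonneg _)
      · rw [← Finset.mul_sum]
        exact mul_le_mul_of_nonneg_left (hf3 _ (Finset.notMem_erase n J)) (norm_nonneg _)
    have h2 : 3 / 4 * ‖a‖ * c ≤ |f n (a n • w n)| := by
      rw [map_smul, smul_eq_mul, abs_mul]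
      have : c ≤ |f n (w n)| := hf2.trans (le_abs_self _)
      exact mul_le_mul hn this hc.le (abs_nonneg _)
    have h3 := abs_sub_abs_le_abs_sub (f n (a n • w n)) (-(∑ m ∈ J.erase n, f n (a m • w m)))
    rw [abs_neg, sub_neg_eq_add] at h3
    nlinarith
  have hup : |f n (BPC.S w C h a)| ≤ ‖BPC.S w C h a‖ := by
    have := (f n).le_opNorm (BPC.S w C h a)
    rw [Real.norm_eq_abs] at this
    refine this.trans ?_
    calc ‖f n‖ * ‖BPC.S w C h a‖ ≤ 1 * ‖BPC.S w C h a‖ :=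
          mul_le_mul_of_nonneg_right hf1 (norm_nonneg _)
      _ = _ := one_mul _
  exact hlow.trans hup

end MPbb13ef
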