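import Pool.Agent.Work.MP_bb13ef_an.ACL.Stmts

/-! F2: the auxiliary norm with the local property. -/

set_option autoImplicit false

namespace MPbb13ef

namespace F2

variable {X : Type} [NormedAddCommGroup X] [NormedSpace ℝ X]

/-- values whose supremum is the auxiliary norm -/
def A (u : ℕ → X) (x : X) : Set ℝ :=
  {r | ∃ (m : ℕ) (f : X →L[ℝ] ℝ), ‖f‖ ≤ 1 ∧ (∀ i, |f (u i)| ≤ m * (1 / 2) ^ i) ∧
    r = (1 + (1 / 2) ^ m) * |f x|}

lemma abs_le (f : X →L[ℝ] ℝ) (hf : ‖f‖ ≤ 1) (x : X) : |f x| ≤ ‖x‖ := by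
  have h := f.le_opNorm x
  rw [Real.norm_eq_abs] at h
  have h2 : ‖f‖ * ‖x‖ ≤ 1 * ‖x‖ := mul_le_mul_of_nonneg_right hf (norm_nonneg _)
  linarith

lemma A_le (u : ℕ → X) (x : X) (r : ℝ) (hr : r ∈ A u x) : r ≤ 2 * ‖x‖ := by
  obtain ⟨m, f, hf, -, rfl⟩ := hr
  have h1 := abs_le f hf x
  have h2 : (1 / 2 : ℝ) ^ m ≤ 1 := pow_le_one₀ (by norm_num) (by norm_num)
  exact mul_le_mul (by linarith) h1 (abs_nonneg _) (by norm_num)

lemma A_bdd (u : ℕ → X) (x : X) : BddAbove (A u x) := ⟨2 * ‖x‖, fun r hr => A_le u x r hr⟩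

lemma A_zero (u : ℕ → X) (x : X) : (0 : ℝ) ∈ A u x := by
  refine ⟨0, 0, by simp, fun i => by simp, by simp⟩

lemma exists_nat (u : ℕ → X) (b : X →L[ℝ] ℝ) (M : ℝ) (hM : ∀ i, |b (u i)| ≤ M * (1 / 2) ^ i) :
    ∃ m : ℕ, ∀ i, |b (u i)| ≤ m * (1 / 2) ^ i := by
  obtain ⟨m, hm⟩ := exists_nat_ge M
  refine ⟨m, fun i => (hM i).trans ?_⟩
  exact mul_le_mul_of_nonneg_right hm (by positivity)

end F2

theorem prf_F2 : S_F2 := by
  intro X _ _ B u hB hu hM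
  refine ⟨fun x => sSup (F2.A u x), hu, ?_, ?_, ?_⟩
  · intro x
    obtain ⟨b, hbB, hb1, hbx⟩ := hB x
    obtain ⟨M, hMb⟩ := hM b hbB
    obtain ⟨m, hm⟩ := F2.exists_nat u b M hMb
    have h1 : (1 + (1 / 2) ^ m) * |b x| ≤ sSup (F2.A u x) :=
      le_csSup (F2.A_bdd u x) ⟨m, b, hb1, hm, rfl⟩
    refine le_trans ?_ h1
    rw [hbx]
    have h2 : (0 : ℝ) ≤ (1 / 2) ^ m * ‖x‖ := by positivity
    linarith
  · intro x
    exact csSup_le ⟨0, F2.A_zero u x⟩ fun r hr => F2.A_le u x r hr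
  · intro x hx
    obtain ⟨b, hbB, hb1, hbx⟩ := hB x
    obtain ⟨M, hMb⟩ := hM b hbB
    obtain ⟨m0, hm0⟩ := F2.exists_nat u b M hMb
    set a : ℝ := (1 / 2) ^ m0 with ha
    have ha0 : 0 < a := by positivity
    have ha1 : a ≤ 1 := pow_le_one₀ (by norm_num) (by norm_num)
    have hxn : 0 < ‖x‖ := norm_pos_iff.2 hx
    refine ⟨a * ‖x‖ / 10, 2 * m0, by positivity, ?_⟩
    intro x' t i hx' ht
    set δ : ℝ := a * ‖x‖ / 10 with hδ
    refine csSup_le ⟨0, F2.A_zero u _⟩ ?_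
    rintro r ⟨m, f, hf, hfm, rfl⟩
    have hpow : (0 : ℝ) < (1 / 2) ^ i := by positivity
    rcases le_or_gt m m0 with hmm | hmm
    · have h1 : |f (x' + t • u i)| ≤ |f x'| + |t| * |f (u i)| := by
        rw [map_add, map_smul, smul_eq_mul, ← abs_mul]
        exact abs_add_le _ _
      have h2 : (1 + (1 / 2) ^ m) * |f x'| ≤ sSup (F2.A u x') :=
        le_csSup (F2.A_bdd u x') ⟨m, f, hf, hfm, rfl⟩
      have h3 : (1 / 2 : ℝ) ^ m ≤ 1 := pow_le_one₀ (by norm_num) (by norm_num)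
      have h4 : (0 : ℝ) ≤ (1 / 2 : ℝ) ^ m := by positivity
      have h5 : |f (u i)| ≤ m0 * (1 / 2) ^ i := (hfm i).trans
        (mul_le_mul_of_nonneg_right (by exact_mod_cast hmm) hpow.le)
      have h6 : |t| * |f (u i)| ≤ |t| * (m0 * (1 / 2) ^ i) :=
        mul_le_mul_of_nonneg_left h5 (abs_nonneg _)
      have h7 : (1 + (1 / 2 : ℝ) ^ m) * (|t| * |f (u i)|) ≤ 2 * (|t| * (m0 * (1 / 2) ^ i)) :=
        mul_le_mul (by linarith) h6 (by positivity) (by norm_num)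
      calc (1 + (1 / 2 : ℝ) ^ m) * |f (x' + t • u i)|
          ≤ (1 + (1 / 2 : ℝ) ^ m) * (|f x'| + |t| * |f (u i)|) :=
            mul_le_mul_of_nonneg_left h1 (by linarith)
        _ = (1 + (1 / 2 : ℝ) ^ m) * |f x'| + (1 + (1 / 2 : ℝ) ^ m) * (|t| * |f (u i)|) := by ring
        _ ≤ sSup (F2.A u x') + 2 * (|t| * (m0 * (1 / 2) ^ i)) := add_le_add h2 h7
        _ = sSup (F2.A u x') + |t| * (2 * m0) * (1 / 2) ^ i := by ring
    · have h1 : (1 / 2 : ℝ) ^ m ≤ a / 2 := by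
        have h2 : (1 / 2 : ℝ) ^ m ≤ (1 / 2) ^ (m0 + 1) :=
          pow_le_pow_of_le_one (by norm_num) (by norm_num) hmm
        rw [pow_succ] at h2
        rw [ha]
        linarith
      have h2 : |f (x' + t • u i)| ≤ ‖x‖ + 2 * δ := by
        have g1 := F2.abs_le f hf (x' + t • u i)
        have g2 : ‖x' + t • u i‖ ≤ ‖x'‖ + ‖t • u i‖ := norm_add_le _ _
        have g3 : ‖t • u i‖ = |t| := by rw [norm_smul, hu, mul_one, Real.norm_eq_abs]
        have g4 : ‖x'‖ ≤ ‖x' - x‖ + ‖x‖ := by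
          calc ‖x'‖ = ‖(x' - x) + x‖ := by rw [sub_add_cancel]
            _ ≤ _ := norm_add_le _ _
        linarith
      have h3 : (1 + a) * |b x'| ≤ sSup (F2.A u x') :=
        le_csSup (F2.A_bdd u x') ⟨m0, b, hb1, hm0, rfl⟩
      have h4 : ‖x‖ - δ ≤ |b x'| := by
        have g1 : |b x| ≤ |b x'| + |b (x' - x)| := by
          have : b x = b x' - b (x' - x) := by rw [map_sub]; ring
          rw [this]
          exact abs_sub _ _
        have g2 := F2.abs_le b hb1 (x' - x)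
        linarith
      have hδ0 : 0 < δ := by positivity
      have h5 : (1 + (1 / 2 : ℝ) ^ m) * |f (x' + t • u i)| ≤ (1 + a / 2) * (‖x‖ + 2 * δ) :=
        mul_le_mul (by linarith) h2 (abs_nonneg _) (by linarith)
      have h6 : (1 + a) * (‖x‖ - δ) ≤ (1 + a) * |b x'| :=
        mul_le_mul_of_nonneg_left h4 (by linarith)
      have h7 : (1 + a / 2) * (‖x‖ + 2 * δ) ≤ (1 + a) * (‖x‖ - δ) := by
        have e1 : (1 + a) * (‖x‖ - δ) - (1 + a / 2) * (‖x‖ + 2 * δ) =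
            ‖x‖ * a * (1 - a) / 5 := by
          rw [hδ]; ring
        have e2 : 0 ≤ ‖x‖ * a * (1 - a) / 5 := by
          have : 0 ≤ 1 - a := by linarith
          positivity
        linarith
      have h8 : 0 ≤ |t| * (2 * (m0 : ℝ)) * (1 / 2) ^ i := by positivity
      linarith

end MPbb13ef
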