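import Pool.Agent.Work.MP_bb13ef_an.Bd.B01
import Pool.Agent.Work.MP_bb13ef_an.Bd.B02
import Pool.Agent.Work.MP_bb13ef_an.ACL.I_L4
import Pool.Agent.Work.MP_bb13ef_an.ACL.I_BPC
import Pool.Agent.Work.MP_bb13ef_an.ACL.I_F2

/-!
# The main theorem: spaces with a boundary of spears contain `c₀` or `ℓ₁`
-/

set_option autoImplicit false

open scoped ZeroAtInfty

namespace MPbb13ef

theorem prf_BP : S_BP := asm_BP prf_BPA prf_BPB prf_BPC

theorem prf_CPT' : S_CPT := prf_CPT (prf_BLK prf_BP)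

theorem prf_F : S_F := asm_F (prf_F1 prf_BP) prf_F2 (prf_G2 prf_G1 prf_BP prf_CPT')

/-- Separable infinite-dimensional spaces with a norming set of spears which, together with
countably many functionals, is a boundary contain `c₀` or `ℓ₁`. -/
theorem prf_MAIN : S_MAIN :=
  asm_MAIN prf_DNS prf_STB (prf_L4 prf_EXT) prf_L1E (prf_B prf_F prf_DET prf_SUB prf_CAU prf_INT)
    prf_VC (prf_VI prf_DET) (prf_E prf_F prf_SUB)

/-- The main theorem for the set of all spears, norming form. -/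
theorem main_norming (X : Type) [NormedAddCommGroup X] [NormedSpace ℝ X] [CompleteSpace X]
    [TopologicalSpace.SeparableSpace X] (hfd : ¬ FiniteDimensional ℝ X) (Q : Set (X →L[ℝ] ℝ))
    (hQ : Q.Countable)
    (hnorm : ∀ (x : X) (r : ℝ), r < ‖x‖ → ∃ f : X →L[ℝ] ℝ, Spear f ∧ r < |f x|)
    (hbd : ∀ x : X, ∃ f : X →L[ℝ] ℝ, (Spear f ∨ f ∈ Q) ∧ ‖f‖ ≤ 1 ∧ |f x| = ‖x‖) :
    HasC0 X ∨ HasL1 X :=
  asm_SPEAR prf_HULL prf_MAIN X hfd Q hQ hnorm hbd

theorem exists_ne_zero_of_not_fd (X : Type) [NormedAddCommGroup X] [NormedSpace ℝ X]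
    (hfd : ¬ FiniteDimensional ℝ X) : ∃ x : X, x ≠ 0 := by
  by_contra hcon
  push Not at hcon
  have : Subsingleton X := ⟨fun a b => by rw [hcon a, hcon b]⟩
  exact hfd inferInstance

/-- The main theorem for the set of all spears, numerical index one. -/
theorem main_index (X : Type) [NormedAddCommGroup X] [NormedSpace ℝ X] [CompleteSpace X]
    [TopologicalSpace.SeparableSpace X] (hfd : ¬ FiniteDimensional ℝ X) (hN : NI1 X)
    (Q : Set (X →L[ℝ] ℝ)) (hQ : Q.Countable)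
    (hbd : ∀ x : X, ∃ f : X →L[ℝ] ℝ, (Spear f ∨ f ∈ Q) ∧ ‖f‖ ≤ 1 ∧ |f x| = ‖x‖) :
    HasC0 X ∨ HasL1 X :=
  main_norming X hfd Q hQ
    (norming_of_adp (prf_NIA X hN) (exists_ne_zero_of_not_fd X hfd) Q hQ hbd) hbd

/-- Almost-CL-spaces: the unit ball is the closed convex hull of the union of a maximal convex
subset `F` of the unit sphere and `-F`, for every such `F`. -/
def AlmostCL (X : Type) [NormedAddCommGroup X] [NormedSpace ℝ X] : Prop :=
  ∀ F : Set X, Maximal (fun G : Set X => Convex ℝ G ∧ G ⊆ Metric.sphere (0 : X) 1) F →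
    Metric.closedBall (0 : X) 1 ⊆ closure (convexHull ℝ (F ∪ -F))

theorem almostCL_index (X : Type) [NormedAddCommGroup X] [NormedSpace ℝ X] (h : AlmostCL X)
    (hne : ∃ x : X, x ≠ 0) : NI1 X :=
  prf_NI X (fun x hx => prf_ACL X h x hx) hne

theorem almostCL_spear (X : Type) [NormedAddCommGroup X] [NormedSpace ℝ X] (h : AlmostCL X)
    (hne : ∃ x : X, x ≠ 0) (x : X) : ∃ f : X →L[ℝ] ℝ, Spear f ∧ f x = ‖x‖ := by
  rcases eq_or_ne x 0 with rfl | hx
  · obtain ⟨y, hy⟩ := hne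
    have hy0 : 0 < ‖y‖ := norm_pos_iff.2 hy
    obtain ⟨f, hf, -⟩ := prf_ACL X h (‖y‖⁻¹ • y) (by
      rw [norm_smul, norm_inv, norm_norm, inv_mul_cancel₀ hy0.ne'])
    exact ⟨f, prf_FACE X f hf, by simp⟩
  · have hx0 : 0 < ‖x‖ := norm_pos_iff.2 hx
    obtain ⟨f, hf, hfx⟩ := prf_ACL X h (‖x‖⁻¹ • x) (by
      rw [norm_smul, norm_inv, norm_norm, inv_mul_cancel₀ hx0.ne'])
    refine ⟨f, prf_FACE X f hf, ?_⟩
    rw [map_smul, smul_eq_mul] at hfx
    field_simp at hfx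
    exact hfx

/-- Separable infinite-dimensional almost-CL-spaces contain `c₀` or `ℓ₁`. -/
theorem almostCL_main (X : Type) [NormedAddCommGroup X] [NormedSpace ℝ X] [CompleteSpace X]
    [TopologicalSpace.SeparableSpace X] (hfd : ¬ FiniteDimensional ℝ X) (h : AlmostCL X) :
    HasC0 X ∨ HasL1 X := by
  have hne := exists_ne_zero_of_not_fd X hfd
  have hs := almostCL_spear X h hne
  refine main_norming X hfd ∅ Set.countable_empty ?_ ?_
  · intro x r hr
    obtain ⟨f, hf, hfx⟩ := hs x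
    exact ⟨f, hf, by rw [hfx, abs_of_nonneg (norm_nonneg x)]; exact hr⟩
  · intro x
    obtain ⟨f, hf, hfx⟩ := hs x
    exact ⟨f, Or.inl hf, hf.1.le, by rw [hfx, abs_of_nonneg (norm_nonneg x)]⟩

end MPbb13ef
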