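import Pool.Agent.Work.MP_bb13ef_an.ACL.Stmts

set_option autoImplicit false

namespace MPbb13ef

namespace SPL

variable {X : Type} [NormedAddCommGroup X] [NormedSpace ℝ X]

/-- a functional of norm at most one is at most one on the ball -/
lemma le_one (t : X →L[ℝ] ℝ) (ht : ‖t‖ ≤ 1) (x : X) (hx : ‖x‖ ≤ 1) : t x ≤ 1 := by
  have h := t.le_opNorm x
  have h2 : ‖t‖ * ‖x‖ ≤ 1 * 1 := mul_le_mul ht hx (norm_nonneg _) (by norm_num)
  have h3 : t x ≤ ‖t x‖ := le_abs_self _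
  linarith

/-- the error estimate -/
lemma est (t : X →L[ℝ] ℝ) (ht : ‖t‖ ≤ 1) (x w : X) (ε : ℝ) (h : ‖x - w‖ < ε) :
    t x ≤ t w + ε := by
  have h1 := t.le_opNorm (x - w)
  have h2 : ‖t‖ * ‖x - w‖ ≤ 1 * ‖x - w‖ := mul_le_mul_of_nonneg_right ht (norm_nonneg _)
  have h3 : t (x - w) ≤ ‖t (x - w)‖ := le_abs_self _
  rw [map_sub] at h3
  rw [map_sub] at h1
  linarith

end SPL

theorem prf_SPL : S_SPL := by
  classical
  intro X _ _ P e hP he hC
  by_contra hcon
  rw [not_or] at hcon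
  obtain ⟨h1, h2⟩ := hcon
  unfold Cons at h1 h2
  push Not at h1 h2
  obtain ⟨T1, hT1, ε1, hε1, h1⟩ := h1
  obtain ⟨T2, hT2, ε2, hε2, h2⟩ := h2
  obtain ⟨T, hTdef⟩ : ∃ T, T = T1.erase e ∪ T2.erase (-e) := ⟨_, rfl⟩
  have hT : (T : Set (X →L[ℝ] ℝ)) ⊆ P := by
    intro t ht
    rw [Finset.mem_coe, hTdef, Finset.mem_union, Finset.mem_erase, Finset.mem_erase] at ht
    rcases ht with ⟨h, h'⟩ | ⟨h, h'⟩
    · rcases hT1 (Finset.mem_coe.2 h') with h3 | h3
      · exact absurd h3 h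
      · exact h3
    · rcases hT2 (Finset.mem_coe.2 h') with h3 | h3
      · exact absurd h3 h
      · exact h3
  obtain ⟨ε, hεd⟩ : ∃ ε, ε = min (min ε1 ε2) 1 / 8 := ⟨_, rfl⟩
  have hm : 0 < min (min ε1 ε2) 1 := lt_min (lt_min hε1 hε2) one_pos
  have hε : 0 < ε := by rw [hεd]; linarith
  have hb1 : 8 * ε ≤ ε1 := by
    have : min (min ε1 ε2) 1 ≤ ε1 := (min_le_left _ _).trans (min_le_left _ _)
    rw [hεd]; linarith
  have hb2 : 8 * ε ≤ ε2 := by
    have : min (min ε1 ε2) 1 ≤ ε2 := (min_le_left _ _).trans (min_le_right _ _)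
    rw [hεd]; linarith
  obtain ⟨x, hx, hxT⟩ := hC T hT ε hε
  obtain ⟨y, z, l, hy, hz, hey, hez, hl0, hl1, hd⟩ := he.2 x hx ε hε
  have key : ∀ t ∈ T, 1 - 2 * ε < l * t y - (1 - l) * t z := by
    intro t ht
    have ht1 : ‖t‖ ≤ 1 := hP t (hT (Finset.mem_coe.2 ht))
    have h3 := SPL.est t ht1 x (l • y - (1 - l) • z) ε hd
    have h4 := hxT t ht
    rw [map_sub, map_smul, map_smul, smul_eq_mul, smul_eq_mul] at h3
    linarith
  rcases le_total (1 / 2) l with hl | hl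
  · obtain ⟨t, htT, hty⟩ := h1 y hy
    by_cases hte : t = e
    · rw [hte] at hty
      linarith
    · have htT' : t ∈ T := by
        rw [hTdef]
        exact Finset.mem_union_left _ (Finset.mem_erase.2 ⟨hte, htT⟩)
      have ht1 : ‖t‖ ≤ 1 := hP t (hT (Finset.mem_coe.2 htT'))
      have h5 := key t htT'
      have h6 : t (-z) ≤ 1 := SPL.le_one t ht1 (-z) (by rwa [norm_neg])
      rw [map_neg] at h6
      have h7 : (1 - l) * (-(t z)) ≤ (1 - l) * 1 :=
        mul_le_mul_of_nonneg_left h6 (by linarith)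
      have h8 : l * (1 - t y) < 2 * ε := by nlinarith
      have h9 : t y ≤ 1 := SPL.le_one t ht1 y hy
      have h10 : (1 / 2) * (1 - t y) ≤ l * (1 - t y) :=
        mul_le_mul_of_nonneg_right hl (by linarith)
      linarith
  · obtain ⟨t, htT, hty⟩ := h2 (-z) (by rwa [norm_neg])
    rw [map_neg] at hty
    by_cases hte : t = -e
    · rw [hte, ContinuousLinearMap.neg_apply] at hty
      linarith
    · have htT' : t ∈ T := by
        rw [hTdef]
        exact Finset.mem_union_right _ (Finset.mem_erase.2 ⟨hte, htT⟩)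
      have ht1 : ‖t‖ ≤ 1 := hP t (hT (Finset.mem_coe.2 htT'))
      have h5 := key t htT'
      have h6 : t y ≤ 1 := SPL.le_one t ht1 y hy
      have h7 : l * t y ≤ l * 1 := mul_le_mul_of_nonneg_left h6 hl0
      have h8 : (1 - l) * (1 - (-(t z))) < 2 * ε := by nlinarith
      have h9 : t (-z) ≤ 1 := SPL.le_one t ht1 (-z) (by rwa [norm_neg])
      rw [map_neg] at h9
      have h10 : (1 / 2) * (1 - (-(t z))) ≤ (1 - l) * (1 - (-(t z))) :=
        mul_le_mul_of_nonneg_right (by linarith) (by linarith)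
      linarith

end MPbb13ef
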